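import Pool.Agent.Work.MP_2738db_nt_Y.Interface5

/-!
THIRD BASE theorem for the Fermat-Catalan conjecture (MP_2738db): for 100 percent of the integers
`c` no power of `c` is the sum or the difference of two coprime perfect powers `a ^ m`, `b ^ n` with
`gcd (m, n) ≥ 3`.  Statements of the blocks; proofs: `BLUEPRINT.md`.
-/

set_option autoImplicit false

namespace Pool.Agent.Work.MP_2738db_nt_ZZ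

open Finset Polynomial

/-- `c ^ k` is a sum of two coprime `p`-th powers -/
def Pl (p c k : ℕ) : Prop :=
  ∃ x y : ℕ, 1 ≤ x ∧ 1 ≤ y ∧ Nat.Coprime x y ∧ x ^ p + y ^ p = c ^ k

/-- `c ^ k` is a difference of two coprime positive `p`-th powers -/
def Mi (p c k : ℕ) : Prop :=
  ∃ x y : ℕ, 1 ≤ y ∧ Nat.Coprime x y ∧ y ^ p + c ^ k = x ^ p

/-- **STR**: the two factors of `x ^ p - Y ^ p = c ^ k`. -/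
def Stmt_Str : Prop :=
  ∀ (p : ℕ) (x Y : ℤ) (c k : ℕ), p.Prime → 3 ≤ p → IsCoprime x Y → 1 ≤ c → 1 ≤ k →
    x ^ p - Y ^ p = (c : ℤ) ^ k →
    ∃ d z D : ℕ, c = d * z ∧ x - Y = (D : ℤ) ∧ 1 ≤ D ∧ Nat.Coprime d z ∧
      (∀ r : ℕ, r.Prime → r ∣ z → r % p = 1) ∧ (∀ r : ℕ, r.Prime → r ∣ D → r ∣ d) ∧
      (D = d ^ k ∧ ¬ p ∣ c ∧ c ^ k = D * z ^ k ∨
        p ∣ d ∧ p * D = d ^ k ∧ c ^ k = D * (p * z ^ k))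

/-- **SZP**: `(x - Y) ^ p ≤ 2 ^ (p - 1) (x ^ p - Y ^ p)`. -/
def Stmt_Szp : Prop :=
  ∀ (p : ℕ) (x Y : ℤ) (D : ℕ), Odd p → x - Y = (D : ℤ) →
    (D : ℤ) ^ p ≤ 2 ^ (p - 1) * (x ^ p - Y ^ p)

/-- **LSV**: Gallagher's larger sieve. -/
def Stmt_Lsv : Prop :=
  ∀ (A : Finset ℕ) (X : ℕ) (S : Finset ℕ) (ν : ℕ → ℝ) (R : ℕ → Finset ℕ), 1 ≤ X →
    (∀ a ∈ A, a ≤ X) → (∀ q ∈ S, q.Prime) → (∀ q ∈ S, 0 < ν q ∧ ((R q).card : ℝ) ≤ ν q) →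
    (∀ q ∈ S, ∀ a ∈ A, a % q ∈ R q) →
    (A.card : ℝ) * (∑ q ∈ S, Real.log q / ν q - Real.log X) ≤ ∑ q ∈ S, Real.log q

/-- **STA**: the nonvanishing lemma of Stepanov's method for `n`-th powers. -/
def Stmt_Sta : Prop :=
  ∀ (q n m d D : ℕ) [Fact q.Prime] (f : (ZMod q)[X]), 1 ≤ n → n * m + 1 = q →
    f.natDegree ≤ d → f.eval 0 ≠ 0 →
    (∃ π : (ZMod q)[X], Irreducible π ∧ π ∣ f ∧ ¬ π ^ 2 ∣ f) → (n - 1) * d + n * D < q →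
    ∀ a : Fin n → (ZMod q)[X], (∀ i, (a i).natDegree ≤ D) →
      X ^ q ∣ ∑ i : Fin n, a i * f ^ ((i : ℕ) * m) → ∀ i, a i = 0

/-- **STP**: Stepanov's bound for `n`-th powers. -/
def Stmt_Stp : Prop :=
  ∃ C : ℝ, 1 ≤ C ∧ ∀ (q n d : ℕ) [Fact q.Prime] (f : (ZMod q)[X]), 1 ≤ n → n ∣ q - 1 → 1 ≤ d →
    f.natDegree ≤ d → (∃ π : (ZMod q)[X], Irreducible π ∧ π ∣ f ∧ ¬ π ^ 2 ∣ f) →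
    (Nat.card {y : ZMod q // f.eval y ^ ((q - 1) / n) = 1} : ℝ) ≤
      (q : ℝ) / n + C * ((n : ℝ) * d) ^ C * Real.sqrt q

/-- **NU**: at most half of the classes are `k`-th roots of values of the cofactor. -/
def Stmt_Nu : Prop :=
  ∃ C : ℝ, 1 ≤ C ∧ ∀ (q p k a : ℕ) (D : ℤ) [Fact q.Prime], p.Prime → 3 ≤ p → 1 ≤ k →
    ¬ q ∣ 2 * p * a → ¬ (q : ℤ) ∣ D →
    (Nat.card {z : ZMod q // ∃ Y : ZMod q, (Y + (D : ZMod q)) ^ p - Y ^ p =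
      (a : ZMod q) * (D : ZMod q) * z ^ k} : ℝ) ≤
      (q : ℝ) / 2 + C * ((p : ℝ) * k) ^ C * Real.sqrt q

/-- **O1A**: the larger sieve for the cofactor. -/
def Stmt_O1a : Prop :=
  ∃ C : ℝ, 1 ≤ C ∧ ∀ p k d D a Z : ℕ, p.Prime → 3 ≤ p → 1 ≤ k → 1 ≤ d → 1 ≤ Z → d ≤ Z ^ 2 →
    1 ≤ D → (∀ r : ℕ, r.Prime → r ∣ D → r ∣ d) → (a = 1 ∨ a = p) →
    (({z : ℕ | 1 ≤ z ∧ z ≤ Z ∧ ∃ Y : ℤ, (Y + (D : ℤ)) ^ p - Y ^ p =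
      (a : ℤ) * (D : ℤ) * (z : ℤ) ^ k}.ncard : ℕ) : ℝ) ≤
      C * ((p : ℝ) * k) ^ C * (Z : ℝ) ^ (4 / 5 : ℝ)

/-- **O1**: small exponents. -/
def Stmt_O1 : Prop :=
  ∃ C δ : ℝ, 0 < δ ∧ δ < 1 ∧ ∀ N : ℕ, 1 ≤ N →
    (({c : ℕ | 1 ≤ c ∧ c ≤ N ∧ ∃ p k : ℕ, p.Prime ∧ 3 ≤ p ∧ 1 ≤ k ∧
      ((p * k : ℕ) : ℝ) ≤ (N : ℝ) ^ δ ∧ ∃ x Y : ℤ, IsCoprime x Y ∧
        x ^ p - Y ^ p = (c : ℤ) ^ k}.ncard : ℕ) : ℝ) ≤ C * (N : ℝ) ^ (1 - δ)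

/-- **O2**: sums, large `k`. -/
def Stmt_O2 : Prop :=
  ∃ C : ℝ, ∀ N K₀ : ℕ, 2 ≤ N → 10 * (1 + Real.log N) ^ 2 ≤ (K₀ : ℝ) →
    (({c : ℕ | 1 ≤ c ∧ c ≤ N ∧ ∃ p k : ℕ, p.Prime ∧ 3 ≤ p ∧ K₀ ≤ k ∧ Pl p c k}.ncard : ℕ) : ℝ) ≤
      C * ((N : ℝ) ^ (1 / 2 : ℝ) + (N : ℝ) * (1 + Real.log N) ^ 2 / K₀)

/-- **O3**: differences, large `k`, small `p`. -/
def Stmt_O3 : Prop :=
  ∃ η : ℝ, 0 < η ∧ η < 1 ∧ ∀ δ : ℝ, 0 < δ → δ < 1 → ∃ C : ℝ, ∀ N : ℕ, 2 ≤ N →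
    (({c : ℕ | 1 ≤ c ∧ c ≤ N ∧ ∃ p k : ℕ, p.Prime ∧ 3 ≤ p ∧ (p : ℝ) ≤ Real.log N ^ η ∧
      (N : ℝ) ^ δ ≤ k ∧ Mi p c k}.ncard : ℕ) : ℝ) ≤ C * (N : ℝ) ^ (1 - δ / 4)

/-- **BTR**: reciprocals of the primes `1` modulo `p`. -/
def Stmt_Btr : Prop :=
  ∃ C : ℝ, 1 ≤ C ∧ ∀ p z N : ℕ, p.Prime → 3 ≤ z → p ^ 2 ≤ z → z ≤ N →
    ∑ r ∈ (Ioc z N).filter (fun r => r.Prime ∧ r % p = 1), (1 : ℝ) / r ≤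
      C * (1 + Real.log (1 + Real.log N)) / p

/-- **FEW**: few integers have at most one large prime factor. -/
def Stmt_Few : Prop :=
  ∀ η : ℝ, 0 < η → η < 1 → ∃ C δ : ℝ, 0 < δ ∧ ∀ N : ℕ, 2 ≤ N →
    (({c : ℕ | 1 ≤ c ∧ c ≤ N ∧ ∀ r₁ r₂ : ℕ, r₁.Prime → r₂.Prime →
      Real.exp (Real.log N ^ (1 - η)) < r₁ → r₁ < r₂ → ¬ r₁ * r₂ ∣ c}.ncard : ℕ) : ℝ) ≤
      C * N / Real.log N ^ δ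

/-- **O4**: differences, large `p`. -/
def Stmt_O4 : Prop :=
  ∀ η : ℝ, 0 < η → η < 1 → ∃ C δ : ℝ, 0 < δ ∧ ∀ N : ℕ, 2 ≤ N →
    (({c : ℕ | 1 ≤ c ∧ c ≤ N ∧ ∃ p k : ℕ, p.Prime ∧ 3 ≤ p ∧ Real.log N ^ η < (p : ℝ) ∧
      1 ≤ k ∧ Mi p c k}.ncard : ℕ) : ℝ) ≤ C * N / Real.log N ^ δ

/-- **M4**: differences of fourth powers. -/
def Stmt_M4 : Prop :=
  ∃ C δ : ℝ, 0 < δ ∧ ∀ N : ℕ, 1 ≤ N →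
    (({c : ℕ | 1 ≤ c ∧ c ≤ N ∧ ∃ k : ℕ, 1 ≤ k ∧ Mi 4 c k}.ncard : ℕ) : ℝ) ≤
      C * (N : ℝ) ^ (1 - δ)

/-- **P2**: sums of two coprime squares. -/
def Stmt_P2 : Prop :=
  ∃ C δ : ℝ, 0 < δ ∧ ∀ N : ℕ, 2 ≤ N →
    (({c : ℕ | 1 ≤ c ∧ c ≤ N ∧ ∃ k : ℕ, 1 ≤ k ∧ Pl 2 c k}.ncard : ℕ) : ℝ) ≤
      C * N / Real.log N ^ δ

/-- **THIRD BASE** -/
def Stmt_ZZ : Prop :=
  ∃ C δ : ℝ, 0 < δ ∧ ∀ N : ℕ, 2 ≤ N →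
    (({c : ℕ | 1 ≤ c ∧ c ≤ N ∧ ∃ a b m n k : ℕ, 1 ≤ a ∧ 1 ≤ b ∧ Nat.Coprime a b ∧ 1 ≤ m ∧
      1 ≤ n ∧ 1 ≤ k ∧ 3 ≤ Nat.gcd m n ∧ (a ^ m + b ^ n = c ^ k ∨ b ^ n + c ^ k = a ^ m)}.ncard : ℕ) :
      ℝ) ≤ C * N / Real.log N ^ δ

end Pool.Agent.Work.MP_2738db_nt_ZZ
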